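import Pool.Agent.H37.AK.ES
import Pool.Agent.H64.Brouwer

namespace Pool.Agent.H37.AK
open Finset

/-- Brouwer on the cube for the multilinear extension. -/
theorem exists_fixed {m : ℕ} (F : Fin m → (Fin m → Bool) → ℝ)
    (h0 : ∀ i x, 0 ≤ F i x) (h1 : ∀ i x, F i x ≤ 1) :
    ∃ p : Fin m → ℝ, (∀ i, 0 ≤ p i ∧ p i ≤ 1) ∧ ∀ i, ∑ x, w p x * F i x = p i := by
  let K : Set (EuclideanSpace ℝ (Fin m)) := {p | ∀ i, 0 ≤ p i ∧ p i ≤ 1}
  have hKc : IsClosed K := by
    have : K = ⋂ i, {p : EuclideanSpace ℝ (Fin m) | 0 ≤ p i ∧ p i ≤ 1} := by
      ext p; simp [K]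
    rw [this]
    apply isClosed_iInter
    intro i
    have hc : Continuous fun p : EuclideanSpace ℝ (Fin m) => p i := by fun_prop
    exact (isClosed_le continuous_const hc).inter (isClosed_le hc continuous_const)
  have hKb : Bornology.IsBounded K := by
    rw [isBounded_iff_forall_norm_le]
    refine ⟨Real.sqrt m, fun p hp => ?_⟩
    rw [EuclideanSpace.norm_eq]
    apply Real.sqrt_le_sqrt
    calc ∑ i, ‖p i‖ ^ 2 ≤ ∑ _i : Fin m, (1:ℝ) := by
          apply Finset.sum_le_sum
          intro i _
          rw [Real.norm_eq_abs, sq_abs]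
          nlinarith [(hp i).1, (hp i).2]
      _ = m := by simp
  have hK : IsCompact K := Metric.isCompact_of_isClosed_isBounded hKc hKb
  have hconv : Convex ℝ K := by
    intro x hx y hy a b ha hb hab i
    have e : (a • x + b • y) i = a * x i + b * y i := by simp
    rw [e]
    constructor
    · have := (hx i).1; have := (hy i).1; positivity
    · have := (hx i).2; have := (hy i).2; nlinarith
  have hne : K.Nonempty := ⟨0, fun i => by simp⟩
  let f : EuclideanSpace ℝ (Fin m) → EuclideanSpace ℝ (Fin m) :=
    fun p => WithLp.toLp 2 (fun i => ∑ x, w (fun j => p j) x * F i x)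
  have hfi : ∀ p i, f p i = ∑ x, w (fun j => p j) x * F i x := fun p i => rfl
  have hf : Continuous f := by
    have : Continuous fun p : EuclideanSpace ℝ (Fin m) =>
        (fun i => ∑ x, w (fun j => p j) x * F i x : Fin m → ℝ) := by
      apply continuous_pi
      intro i
      apply continuous_finsetSum
      intro x _
      apply Continuous.mul _ continuous_const
      unfold w
      apply continuous_finsetProd
      intro j _
      split_ifs <;> fun_prop
    exact (PiLp.continuous_toLp 2 _).comp this
  have hm : Set.MapsTo f K K := by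
    intro p hp i
    have hw := fun x => w_nonneg (fun j => p j) hp x
    rw [hfi]
    constructor
    · exact Finset.sum_nonneg fun x _ => mul_nonneg (hw x) (h0 i x)
    · calc ∑ x, w (fun j => p j) x * F i x ≤ ∑ x, w (fun j => p j) x := by
            apply Finset.sum_le_sum
            intro x _
            have := mul_le_mul_of_nonneg_left (h1 i x) (hw x)
            linarith
        _ = 1 := w_sum _
  obtain ⟨p, hp, hfp⟩ := Pool.Agent.H64.BU.brouwer_convex hK hconv hne hf.continuousOn hm
  refine ⟨fun i => p i, hp, fun i => ?_⟩
  rw [← hfi, hfp]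

theorem w_marg {m : ℕ} (p : Fin m → ℝ) (i : Fin m) :
    ∑ x, w p x * (if x i = true then 1 else 0) = p i := by
  classical
  have h : ∀ x : Fin m → Bool, w p x * (if x i = true then (1:ℝ) else 0) =
      ∏ j, (if j = i then (if x j then p j else 0) else (if x j then p j else 1 - p j)) := by
    intro x
    unfold w
    by_cases hx : x i = true
    · rw [if_pos hx, mul_one]
      apply Finset.prod_congr rfl
      intro j _
      by_cases hj : j = i
      · subst hj; simp [hx]
      · simp [hj]
    · rw [if_neg hx, mul_zero]
      symm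
      apply Finset.prod_eq_zero (Finset.mem_univ i)
      simp [hx]
  rw [Finset.sum_congr rfl (fun x _ => h x)]
  have := (Finset.prod_univ_sum (fun _ : Fin m => (Finset.univ : Finset Bool))
    (fun j b => (if j = i then (if b then p j else 0) else (if b then p j else 1 - p j)))).symm
  rw [Fintype.piFinset_univ] at this
  rw [this]
  rw [Finset.prod_eq_single i]
  · simp
  · intro j _ hj
    simp [hj]
  · simp

/-- The fixed-point location. -/
theorem fixpt {m : ℕ} (F : Fin m → (Fin m → Bool) → ℝ)
    (h0 : ∀ i x, 0 ≤ F i x) (h1 : ∀ i x, F i x ≤ 1) (δ u : ℝ) (hu : 0 < u)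
    (hd : ∀ i x j b, |F i (Function.update x j b) - F i x| ≤ δ)
    (hmu : m * δ ^ 2 / (4 * u ^ 2) ≤ u) :
    ∃ x : Fin m → Bool,
      ((univ.filter fun i => x i = false ∧ F i x = 1).card : ℝ)
        + (univ.filter fun i => x i = true ∧ F i x = 0).card ≤ 2 * u * m := by
  classical
  obtain ⟨p, hp, hfix⟩ := exists_fixed F h0 h1
  have hw := w_nonneg p hp
  have hCh : ∀ i, ∑ x, w p x * (if u ≤ |F i x - p i| then 1 else 0) ≤ u := by
    intro i
    have := chebyshev p hp (F i) δ u hu (hd i)
    rw [hfix i] at this
    exact this.trans hmu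
  have hA : ∀ i, ∑ x, w p x * (if x i = false ∧ F i x = 1 then 1 else 0) ≤ u := by
    intro i
    by_cases hc : 1 - u < p i
    · have e : ∑ x, w p x * (if x i = false then (1:ℝ) else 0) = 1 - p i := by
        have e1 := w_marg p i
        have e2 := w_sum p
        have : ∑ x, w p x * (if x i = false then (1:ℝ) else 0)
            + ∑ x, w p x * (if x i = true then (1:ℝ) else 0) = ∑ x, w p x := by
          rw [← Finset.sum_add_distrib]
          apply Finset.sum_congr rfl
          intro x _
          cases x i <;> simp
        linarith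
      have : ∑ x, w p x * (if x i = false ∧ F i x = 1 then (1:ℝ) else 0)
          ≤ ∑ x, w p x * (if x i = false then (1:ℝ) else 0) := by
        apply Finset.sum_le_sum
        intro x _
        apply mul_le_mul_of_nonneg_left _ (hw x)
        split_ifs with h2 h3 h3 <;> simp_all
      linarith
    · refine le_trans ?_ (hCh i)
      apply Finset.sum_le_sum
      intro x _
      apply mul_le_mul_of_nonneg_left _ (hw x)
      by_cases h2 : x i = false ∧ F i x = 1
      · rw [if_pos h2, if_pos]
        rw [h2.2, abs_of_nonneg (by linarith [(hp i).2])]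
        linarith
      · rw [if_neg h2]; split_ifs <;> simp
  have hB : ∀ i, ∑ x, w p x * (if x i = true ∧ F i x = 0 then 1 else 0) ≤ u := by
    intro i
    by_cases hc : p i < u
    · have e1 := w_marg p i
      have : ∑ x, w p x * (if x i = true ∧ F i x = 0 then (1:ℝ) else 0)
          ≤ ∑ x, w p x * (if x i = true then (1:ℝ) else 0) := by
        apply Finset.sum_le_sum
        intro x _
        apply mul_le_mul_of_nonneg_left _ (hw x)
        split_ifs with h2 h3 h3 <;> simp_all
      linarith
    · refine le_trans ?_ (hCh i)
      apply Finset.sum_le_sum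
      intro x _
      apply mul_le_mul_of_nonneg_left _ (hw x)
      by_cases h2 : x i = true ∧ F i x = 0
      · rw [if_pos h2, if_pos]
        rw [h2.2, zero_sub, abs_neg, abs_of_nonneg (hp i).1]
        linarith
      · rw [if_neg h2]; split_ifs <;> simp
  by_contra hcon
  push Not at hcon
  have hN : ∀ x : Fin m → Bool,
      ((univ.filter fun i => x i = false ∧ F i x = 1).card : ℝ)
        + (univ.filter fun i => x i = true ∧ F i x = 0).card
      = ∑ i, ((if x i = false ∧ F i x = 1 then (1:ℝ) else 0)
        + (if x i = true ∧ F i x = 0 then (1:ℝ) else 0)) := by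
    intro x
    rw [Finset.sum_add_distrib, Finset.sum_boole, Finset.sum_boole]
  have hlt : 2 * u * m < ∑ x, w p x * (((univ.filter fun i => x i = false ∧ F i x = 1).card : ℝ)
        + (univ.filter fun i => x i = true ∧ F i x = 0).card) := by
    have hs := w_sum p
    have : 2 * u * m = ∑ x, w p x * (2 * u * m) := by rw [← Finset.sum_mul, hs, one_mul]
    rw [this]
    apply Finset.sum_lt_sum
    · intro x _
      exact mul_le_mul_of_nonneg_left (hcon x).le (hw x)
    · by_contra h
      push Not at h
      have hz : ∀ x, w p x = 0 := by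
        intro x
        have h2 := h x (mem_univ x)
        by_contra h3
        have h4 : 0 < w p x := lt_of_le_of_ne (hw x) (Ne.symm h3)
        have := mul_lt_mul_of_pos_left (hcon x) h4
        linarith
      rw [Finset.sum_congr rfl (fun x _ => hz x)] at hs
      simp at hs
  have hle : ∑ x, w p x * (((univ.filter fun i => x i = false ∧ F i x = 1).card : ℝ)
        + (univ.filter fun i => x i = true ∧ F i x = 0).card) ≤ 2 * u * m := by
    calc _ = ∑ x, ∑ i, (w p x * (if x i = false ∧ F i x = 1 then (1:ℝ) else 0)
        + w p x * (if x i = true ∧ F i x = 0 then (1:ℝ) else 0)) := by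
          apply Finset.sum_congr rfl
          intro x _
          rw [hN x, Finset.mul_sum]
          apply Finset.sum_congr rfl
          intro i _
          ring
      _ = ∑ i, (∑ x, w p x * (if x i = false ∧ F i x = 1 then (1:ℝ) else 0)
        + ∑ x, w p x * (if x i = true ∧ F i x = 0 then (1:ℝ) else 0)) := by
          rw [Finset.sum_comm]
          apply Finset.sum_congr rfl
          intro i _
          rw [Finset.sum_add_distrib]
      _ ≤ ∑ _i : Fin m, (u + u) := Finset.sum_le_sum fun i _ => add_le_add (hA i) (hB i)
      _ = 2 * u * m := by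
          simp; ring
  linarith

end Pool.Agent.H37.AK
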