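import Pool.Agent.H6.AK.Stmts
import Pool.Agent.H37.AK.FP

/-! Adaptation to the statements of the board: WTS VAR FIX ONE LOC. -/

namespace Pool.Agent.H37.AK
open Finset Pool.Agent.H6.AK

theorem WTS_thm : WTSStmt := by
  intro m p hp
  refine ⟨w_nonneg p hp, w_sum p, fun i => w_marg p i, fun i => ?_⟩
  have e1 := w_marg p i
  have e2 := w_sum p
  have : ∑ x, w p x * (if x i = false then (1:ℝ) else 0)
      + ∑ x, w p x * (if x i = true then (1:ℝ) else 0) = ∑ x, w p x := by
    rw [← Finset.sum_add_distrib]
    apply Finset.sum_congr rfl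
    intro x _
    cases x i <;> simp
  show ∑ x, w p x * (if x i = false then (1:ℝ) else 0) = 1 - p i
  linarith

theorem ham_update {m : ℕ} (x : Fin m → Bool) (i : Fin m) (b : Bool) :
    hammingDist (Function.update x i b) x ≤ 1 := by
  unfold hammingDist
  calc _ ≤ ({i} : Finset (Fin m)).card := by
        apply Finset.card_le_card
        intro j hj
        simp only [mem_filter, mem_univ, true_and] at hj
        rw [mem_singleton]
        by_contra h
        exact hj (Function.update_of_ne h _ _)
    _ = 1 := by simp

theorem diff_of_lip {m : ℕ} {F : (Fin m → Bool) → ℝ} {c : ℝ} (hc : 0 ≤ c)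
    (hF : ∀ x y, |F x - F y| ≤ (hammingDist x y : ℝ) * c) :
    ∀ x i b, |F (Function.update x i b) - F x| ≤ c := by
  intro x i b
  have h1 := hF (Function.update x i b) x
  have h2 : (hammingDist (Function.update x i b) x : ℝ) ≤ 1 := by exact_mod_cast ham_update x i b
  nlinarith

theorem VAR_thm : VARStmt := by
  intro m p hp F c hc hF
  exact efron_stein p hp F c (diff_of_lip hc hF)

theorem FIX_thm : FIXStmt := by
  intro m F hF
  exact exists_fixed F (fun i x => (hF i x).1) (fun i x => (hF i x).2)

theorem ONE_thm : ONEStmt := by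
  intro m p hp F c u i hc hu hF hE hm
  have hw := w_nonneg p hp
  have hE' : ∑ x, w p x * F x = p i := hE
  have hCh : ∑ x, w p x * (if u ≤ |F x - p i| then (1:ℝ) else 0) ≤ u := by
    have := chebyshev p hp F c u hu (diff_of_lip hc hF)
    rw [hE'] at this
    refine this.trans ?_
    rw [div_le_iff₀ (by positivity)]
    nlinarith
  constructor
  · show ∑ x, w p x * (if x i = false ∧ F x = 1 then (1:ℝ) else 0) ≤ u
    by_cases hcc : 1 - u < p i
    · have e : ∑ x, w p x * (if x i = false then (1:ℝ) else 0) = 1 - p i :=
        (WTS_thm m p hp).2.2.2 i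
      have : ∑ x, w p x * (if x i = false ∧ F x = 1 then (1:ℝ) else 0)
          ≤ ∑ x, w p x * (if x i = false then (1:ℝ) else 0) := by
        apply Finset.sum_le_sum
        intro x _
        apply mul_le_mul_of_nonneg_left _ (hw x)
        split_ifs with h2 h3 h3 <;> simp_all
      linarith
    · refine le_trans ?_ hCh
      apply Finset.sum_le_sum
      intro x _
      apply mul_le_mul_of_nonneg_left _ (hw x)
      by_cases h2 : x i = false ∧ F x = 1
      · rw [if_pos h2, if_pos]
        rw [h2.2, abs_of_nonneg (by linarith [(hp i).2])]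
        linarith
      · rw [if_neg h2]; split_ifs <;> simp
  · show ∑ x, w p x * (if x i = true ∧ F x = 0 then (1:ℝ) else 0) ≤ u
    by_cases hcc : p i < u
    · have e1 := w_marg p i
      have : ∑ x, w p x * (if x i = true ∧ F x = 0 then (1:ℝ) else 0)
          ≤ ∑ x, w p x * (if x i = true then (1:ℝ) else 0) := by
        apply Finset.sum_le_sum
        intro x _
        apply mul_le_mul_of_nonneg_left _ (hw x)
        split_ifs with h2 h3 h3 <;> simp_all
      linarith
    · refine le_trans ?_ hCh
      apply Finset.sum_le_sum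
      intro x _
      apply mul_le_mul_of_nonneg_left _ (hw x)
      by_cases h2 : x i = true ∧ F x = 0
      · rw [if_pos h2, if_pos]
        rw [h2.2, zero_sub, abs_neg, abs_of_nonneg (hp i).1]
        linarith
      · rw [if_neg h2]; split_ifs <;> simp

theorem LOC_thm (hLIP : LIPStmt) : LOCStmt := by
  classical
  intro m r SA SB u hr hu hdis hm
  have h := fun i : Fin m => hLIP m r {x | i ∈ SA x} {x | i ∈ SB x} hr (by
    intro x hx y hy
    by_contra hcon
    push Not at hcon
    exact Finset.disjoint_left.1 (hdis x y hcon) hx hy)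
  choose F hF01 hFA hFB hFl using h
  obtain ⟨x, hx⟩ := fixpt F (fun i x => (hF01 i x).1) (fun i x => (hF01 i x).2) (1 / (r:ℝ)) u hu
    (fun i => diff_of_lip (by positivity) (hFl i)) (by
      rw [div_le_iff₀ (by positivity)]
      nlinarith)
  refine ⟨x, le_trans (add_le_add ?_ ?_) hx⟩
  · norm_cast
    apply Finset.card_le_card
    intro i hi
    rw [mem_inter] at hi
    simp only [Z, mem_filter, mem_univ, true_and] at hi ⊢
    exact ⟨hi.2, hFA i x hi.1⟩
  · norm_cast
    apply Finset.card_le_card
    intro i hi
    rw [mem_sdiff] at hi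
    simp only [Z, mem_filter, mem_univ, true_and] at hi ⊢
    exact ⟨by simpa using hi.2, hFB i x hi.1⟩

end Pool.Agent.H37.AK
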