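import Mathlib

namespace Pool.Agent.H37.AK
open Finset

/-- Product Bernoulli weight. -/
noncomputable def w {m : ℕ} (p : Fin m → ℝ) (x : Fin m → Bool) : ℝ :=
  ∏ i, (if x i then p i else 1 - p i)

theorem w_nonneg {m : ℕ} (p : Fin m → ℝ) (hp : ∀ i, 0 ≤ p i ∧ p i ≤ 1) (x : Fin m → Bool) :
    0 ≤ w p x := by
  unfold w
  apply Finset.prod_nonneg
  intro i _
  split_ifs
  · exact (hp i).1
  · linarith [(hp i).2]

theorem sum_cons {m : ℕ} (g : (Fin (m+1) → Bool) → ℝ) :
    ∑ x, g x = ∑ y : Fin m → Bool, (g (Fin.cons true y) + g (Fin.cons false y)) := by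
  rw [← (Fin.consEquiv (fun _ : Fin (m+1) => Bool)).sum_comp g, Fintype.sum_prod_type]
  simp only [Fintype.sum_bool]
  rw [← Finset.sum_add_distrib]
  rfl

theorem w_cons {m : ℕ} (p : Fin (m+1) → ℝ) (b : Bool) (y : Fin m → Bool) :
    w p (Fin.cons b y) = (if b then p 0 else 1 - p 0) * w (fun i => p i.succ) y := by
  unfold w
  rw [Fin.prod_univ_succ]
  simp

theorem w_sum : ∀ {m : ℕ} (p : Fin m → ℝ), ∑ x, w p x = 1 := by
  intro m
  induction m with
  | zero => intro p; simp [w]
  | succ m ih =>
    intro p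
    rw [sum_cons]
    have : ∀ y : Fin m → Bool, w p (Fin.cons true y) + w p (Fin.cons false y) =
        w (fun i => p i.succ) y := by
      intro y
      rw [w_cons, w_cons]
      simp only [if_true, Bool.false_eq_true, if_false]
      ring
    rw [Finset.sum_congr rfl (fun y _ => this y)]
    exact ih _

/-- Efron-Stein (bounded differences form) for the product Bernoulli measure. -/
theorem efron_stein : ∀ {m : ℕ} (p : Fin m → ℝ) (_ : ∀ i, 0 ≤ p i ∧ p i ≤ 1)
    (f : (Fin m → Bool) → ℝ) (δ : ℝ) (_ : ∀ x i b, |f (Function.update x i b) - f x| ≤ δ),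
    ∑ x, w p x * (f x - ∑ y, w p y * f y) ^ 2 ≤ m * δ ^ 2 / 4 := by
  intro m
  induction m with
  | zero =>
    intro p hp f δ hf
    have h1 : ∀ x : Fin 0 → Bool, x = default := fun x => Subsingleton.elim _ _
    simp [w]
  | succ m ih =>
    intro p hp f δ hf
    set a := p 0 with ha
    set q : Fin m → ℝ := fun i => p i.succ with hq
    have hq1 : ∀ i, 0 ≤ q i ∧ q i ≤ 1 := fun i => hp _
    have ha0 := (hp 0).1
    have ha1 := (hp 0).2
    rw [← ha] at ha0 ha1
    set g : (Fin m → Bool) → ℝ := fun y => a * f (Fin.cons true y) + (1 - a) * f (Fin.cons false y)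
      with hg
    have hEg : ∑ x, w p x * f x = ∑ y, w q y * g y := by
      rw [sum_cons]
      apply Finset.sum_congr rfl
      intro y _
      rw [w_cons, w_cons]
      simp [hg]
      ring
    have hgd : ∀ y i b, |g (Function.update y i b) - g y| ≤ δ := by
      intro y i b
      have e1 := hf (Fin.cons true y) i.succ b
      have e2 := hf (Fin.cons false y) i.succ b
      rw [← Fin.cons_update] at e1 e2
      have : g (Function.update y i b) - g y =
          a * (f (Fin.cons true (Function.update y i b)) - f (Fin.cons true y))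
          + (1 - a) * (f (Fin.cons false (Function.update y i b)) - f (Fin.cons false y)) := by
        simp only [hg]; ring
      rw [this, abs_le]
      rw [abs_le] at e1 e2
      constructor
      · nlinarith [e1.1, e2.1]
      · nlinarith [e1.2, e2.2]
    have hI := ih q hq1 g δ hgd
    rw [hEg]
    set μ := ∑ y, w q y * g y with hμ
    rw [sum_cons]
    have key : ∀ y : Fin m → Bool,
        w p (Fin.cons true y) * (f (Fin.cons true y) - μ) ^ 2
          + w p (Fin.cons false y) * (f (Fin.cons false y) - μ) ^ 2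
        ≤ w q y * (g y - μ) ^ 2 + w q y * (δ ^ 2 / 4) := by
      intro y
      rw [w_cons, w_cons]
      have hw := w_nonneg q hq1 y
      have hd := hf (Fin.cons false y) 0 true
      rw [Fin.update_cons_zero] at hd
      set u := f (Fin.cons true y)
      set v := f (Fin.cons false y)
      have hgy : g y = a * u + (1 - a) * v := rfl
      have hd2 : (u - v) ^ 2 ≤ δ ^ 2 := by
        have := abs_le.1 hd
        nlinarith [abs_le.1 hd]
      have h4 : a * (1 - a) * (u - v) ^ 2 ≤ δ ^ 2 / 4 := by
        have h5 : a * (1 - a) ≤ 1 / 4 := by nlinarith [sq_nonneg (a - 1/2)]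
        have h6 : 0 ≤ (u - v) ^ 2 := sq_nonneg _
        nlinarith
      have : (if (true = true) then p 0 else 1 - p 0) * w q y * (u - μ) ^ 2
          + (if (false = true) then p 0 else 1 - p 0) * w q y * (v - μ) ^ 2
          = w q y * (g y - μ) ^ 2 + w q y * (a * (1 - a) * (u - v) ^ 2) := by
        rw [hgy]
        simp only [if_true, Bool.false_eq_true, if_false, ← ha]
        ring
      rw [this]
      have := mul_le_mul_of_nonneg_left h4 hw
      linarith
    refine (Finset.sum_le_sum (fun y _ => key y)).trans ?_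
    rw [Finset.sum_add_distrib, ← Finset.sum_mul, w_sum]
    push_cast
    linarith

/-- Chebyshev. -/
theorem chebyshev {m : ℕ} (p : Fin m → ℝ) (hp : ∀ i, 0 ≤ p i ∧ p i ≤ 1)
    (f : (Fin m → Bool) → ℝ) (δ u : ℝ) (hu : 0 < u)
    (hf : ∀ x i b, |f (Function.update x i b) - f x| ≤ δ) :
    ∑ x, w p x * (if u ≤ |f x - ∑ y, w p y * f y| then 1 else 0) ≤ m * δ ^ 2 / (4 * u ^ 2) := by
  have h := efron_stein p hp f δ hf
  have h2 : u ^ 2 * ∑ x, w p x * (if u ≤ |f x - ∑ y, w p y * f y| then (1:ℝ) else 0) ≤
      ∑ x, w p x * (f x - ∑ y, w p y * f y) ^ 2 := by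
    rw [Finset.mul_sum]
    apply Finset.sum_le_sum
    intro x _
    have hw := w_nonneg p hp x
    split_ifs with hc
    · have : u ^ 2 ≤ (f x - ∑ y, w p y * f y) ^ 2 := by
        rw [← sq_abs (f x - _)]
        exact pow_le_pow_left₀ hu.le hc 2
      nlinarith
    · simp only [mul_zero]
      positivity
  have hu2 : 0 < u ^ 2 := by positivity
  rw [le_div_iff₀ (by positivity)]
  nlinarith

end Pool.Agent.H37.AK
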